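import Pool.Agent.H69.G4.Sphere

/-!
# Planar digraphs of directed girth at least four: the finite multi-digraph form

* `orders` : three linear orders (numberings), every arc is backward in exactly one of them.
* `fin_main` : the same together with the three sets of backward arcs.
-/

set_option autoImplicit false

namespace Pool.Agent.H69.G4

open Pool.Agent.H72.G4

/-- a strict total order of a finite set is given by a numbering -/
theorem numbering {V : Type*} [Finite V] {r : V → V → Prop} (h : STO r) :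
    ∃ p : V → ℕ, Function.Injective p ∧ ∀ x y, r x y ↔ p x < p y := by
  classical
  have := Fintype.ofFinite V
  let p : V → ℕ := fun x => (Finset.univ.filter fun z => r z x).card
  have hlt : ∀ x y, r x y → p x < p y := by
    intro x y hxy
    refine Finset.card_lt_card ⟨fun z hz => ?_, fun hs => ?_⟩
    · simp only [Finset.mem_filter, Finset.mem_univ, true_and] at hz ⊢
      exact h.tr _ _ _ hz hxy
    · have := hs (by simpa using hxy : x ∈ Finset.univ.filter fun z => r z y)
      simp only [Finset.mem_filter, Finset.mem_univ, true_and] at this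
      exact h.irr _ this
  refine ⟨p, fun x y e => ?_, fun x y => ⟨hlt x y, fun e => ?_⟩⟩
  · rcases h.tot x y with k | k | k
    · exact absurd (hlt _ _ k) (by omega)
    · exact k
    · exact absurd (hlt _ _ k) (by omega)
  · rcases h.tot x y with k | k | k
    · exact k
    · subst k
      exact absurd e (lt_irrefl _)
    · exact absurd (hlt _ _ k) (by omega)

section

variable {V A : Type} {tl hd : A → V}

theorem no_loop (hg : ∀ (n : ℕ) (c : Fin (n + 1) → A), (∀ i, hd (c i) = tl (c (i + 1))) →
    Function.Injective (fun i => tl (c i)) → 4 ≤ n + 1) (a : A) : tl a ≠ hd a := by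
  intro e
  have := hg 0 (fun _ => a) (fun _ => e.symm) (fun i j _ => by omega)
  omega

theorem no_two (hg : ∀ (n : ℕ) (c : Fin (n + 1) → A), (∀ i, hd (c i) = tl (c (i + 1))) →
    Function.Injective (fun i => tl (c i)) → 4 ≤ n + 1) (a b : A) (h1 : hd a = tl b)
    (h2 : hd b = tl a) : False := by
  have h0 : tl a ≠ tl b := fun e => no_loop hg a (e.trans h1.symm)
  have := hg 1 ![a, b] (by
    intro i
    fin_cases i
    · simpa using h1
    · simpa using h2) (by
    intro i j e
    fin_cases i <;> fin_cases j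
    · rfl
    · exact absurd e h0
    · exact absurd e.symm h0
    · rfl)
  omega

theorem no_three (hg : ∀ (n : ℕ) (c : Fin (n + 1) → A), (∀ i, hd (c i) = tl (c (i + 1))) →
    Function.Injective (fun i => tl (c i)) → 4 ≤ n + 1) (a b d : A) (h1 : hd a = tl b)
    (h2 : hd b = tl d) (h3 : hd d = tl a) : False := by
  have e1 : tl a ≠ tl b := fun e => no_loop hg a (e.trans h1.symm)
  have e2 : tl b ≠ tl d := fun e => no_loop hg b (e.trans h2.symm)
  have e3 : tl d ≠ tl a := fun e => no_loop hg d (e.trans h3.symm)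
  have := hg 2 ![a, b, d] (by
    intro i
    fin_cases i
    · simpa using h1
    · simpa using h2
    · simpa using h3) (by
    intro i j e
    fin_cases i <;> fin_cases j
    · rfl
    · exact absurd e e1
    · exact absurd e.symm e3
    · exact absurd e.symm e1
    · rfl
    · exact absurd e e2
    · exact absurd e e3
    · exact absurd e.symm e2
    · rfl)
  omega

/-- a directed cycle has a backward arc in every numbering -/
theorem cycle_back {p : V → ℕ} (hp : Function.Injective p) (hl : ∀ a : A, tl a ≠ hd a) {n : ℕ}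
    {c : Fin (n + 1) → A} (hc : ∀ i, hd (c i) = tl (c (i + 1))) :
    ∃ j, p (hd (c j)) < p (tl (c j)) := by
  by_contra hno
  push Not at hno
  obtain ⟨j, -, hj⟩ := Finset.exists_max_image Finset.univ (fun i => p (tl (c i)))
    ⟨0, Finset.mem_univ _⟩
  have h1 := hj (j + 1) (Finset.mem_univ _)
  have h2 := hno j
  rw [hc j] at h2
  exact hl (c j) ((hp (le_antisymm h2 h1)).trans (hc j).symm)

/-- three linear orders of the vertices such that every arc is backward in exactly one of them -/
theorem orders [Finite V]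
    (hno : ∀ (W : Type) [DecidableEq W] [Infinite W], NoMC W)
    (hP : Pool.Agent.H29.Tor.IsPlanar (SimpleGraph.fromRel fun x y => ∃ a, tl a = x ∧ hd a = y))
    (hg : ∀ (n : ℕ) (c : Fin (n + 1) → A), (∀ i, hd (c i) = tl (c (i + 1))) →
      Function.Injective (fun i => tl (c i)) → 4 ≤ n + 1) :
    ∃ p : Fin 3 → V → ℕ, (∀ i, Function.Injective (p i)) ∧
      ∀ a, ∃ i, p i (hd a) < p i (tl a) ∧ ∀ j, j ≠ i → p j (tl a) < p j (hd a) := by
  obtain ⟨O, hO, hE⟩ := planar_orders
    (SimpleGraph.fromRel fun x y => ∃ a, tl a = x ∧ hd a = y) hP hno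
    (D := fun x y => ∃ a, tl a = x ∧ hd a = y)
    (by
      rintro x y ⟨a, rfl, rfl⟩
      exact ⟨no_loop hg a, Or.inl ⟨a, rfl, rfl⟩⟩)
    (by
      rintro x y ⟨a, rfl, rfl⟩ ⟨b, h1, h2⟩
      exact no_two hg a b h1.symm h2)
    (by
      rintro x y z ⟨a, rfl, rfl⟩ ⟨b, h1, rfl⟩ ⟨d, h2, h3⟩
      exact no_three hg a b d h1.symm h2.symm h3)
  choose p hp hq using fun i => numbering (hO i)
  refine ⟨p, hp, fun a => ?_⟩
  obtain ⟨i, h1, h2⟩ := hE _ _ ⟨a, rfl, rfl⟩
  exact ⟨i, (hq i _ _).1 h1, fun j hj => (hq j _ _).1 (h2 j hj)⟩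

/-- the public form: the three sets of backward arcs partition the arcs and each of them meets
every directed cycle -/
theorem fin_main [Fintype V] [Fintype A]
    (hno : ∀ (W : Type) [DecidableEq W] [Infinite W], NoMC W)
    (hP : Pool.Agent.H29.Tor.IsPlanar (SimpleGraph.fromRel fun x y => ∃ a, tl a = x ∧ hd a = y))
    (hg : ∀ (n : ℕ) (c : Fin (n + 1) → A), (∀ i, hd (c i) = tl (c (i + 1))) →
      Function.Injective (fun i => tl (c i)) → 4 ≤ n + 1) :
    ∃ (p : Fin 3 → V → ℕ) (T : Fin 3 → Finset A), (∀ i, Function.Injective (p i)) ∧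
      (∀ i a, a ∈ T i ↔ p i (hd a) < p i (tl a)) ∧ (∀ a, ∃! i, a ∈ T i) ∧
      Pairwise (fun i j => Disjoint (T i) (T j)) ∧
      ∀ i, ∀ (n : ℕ) (c : Fin (n + 1) → A), (∀ j, hd (c j) = tl (c (j + 1))) →
        Function.Injective (fun j => tl (c j)) → ∃ j, c j ∈ T i := by
  classical
  obtain ⟨p, hp, hq⟩ := orders hno hP hg
  let T : Fin 3 → Finset A := fun i => Finset.univ.filter fun a => p i (hd a) < p i (tl a)
  have hT : ∀ i a, a ∈ T i ↔ p i (hd a) < p i (tl a) := by
    intro i a
    simp [T]
  have hu : ∀ a, ∃! i, a ∈ T i := by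
    intro a
    obtain ⟨i, h1, h2⟩ := hq a
    refine ⟨i, (hT i a).2 h1, fun j hj => ?_⟩
    by_contra hji
    exact absurd ((hT j a).1 hj) (not_lt.2 (h2 j hji).le)
  refine ⟨p, T, hp, hT, hu, ?_, ?_⟩
  · intro i j hij
    rw [Finset.disjoint_left]
    intro a h1 h2
    exact hij ((hu a).unique h1 h2)
  · intro i n c hc _
    obtain ⟨j, hj⟩ := cycle_back (hp i) (no_loop hg) hc
    exact ⟨j, (hT i _).2 hj⟩

end

end Pool.Agent.H69.G4
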