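import Pool.Agent.H13.DA.Comp
import Pool.Agent.H13.DA.Chi

/-!
# Triangle complexes under an injective map
-/

set_option autoImplicit false

namespace Pool.Agent.H69.G4

open Relation Pool.Agent.H13.DA

variable {V W : Type*} {T : Finset (V × V × V)} {f : V → W}

open Classical in
/-- the image of a complex -/
noncomputable def mapT (f : V → W) (T : Finset (V × V × V)) : Finset (W × W × W) :=
  T.image (fun t => (f t.1, f t.2.1, f t.2.2))

theorem mem_mapT {x y z : W} : (x, y, z) ∈ mapT f T ↔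
    ∃ a b c, (a, b, c) ∈ T ∧ f a = x ∧ f b = y ∧ f c = z := by
  classical
  unfold mapT
  constructor
  · intro h
    obtain ⟨⟨a, b, c⟩, h1, h2⟩ := Finset.mem_image.1 h
    simp only [Prod.mk.injEq] at h2
    exact ⟨a, b, c, h1, h2.1, h2.2.1, h2.2.2⟩
  · rintro ⟨a, b, c, h1, rfl, rfl, rfl⟩
    exact Finset.mem_image.2 ⟨(a, b, c), h1, rfl⟩

theorem mem_map_of {a b c : V} (h : (a, b, c) ∈ T) : (f a, f b, f c) ∈ mapT f T :=
  mem_mapT.2 ⟨a, b, c, h, rfl, rfl, rfl⟩

theorem map_cx (hf : Function.Injective f) (hT : IsCx T) : IsCx (mapT f T) where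
  rot := by
    intro a b c h
    obtain ⟨x, y, z, h1, rfl, rfl, rfl⟩ := mem_mapT.1 h
    exact mem_map_of (hT.rot h1)
  ne := by
    intro a b c h
    obtain ⟨x, y, z, h1, rfl, rfl, rfl⟩ := mem_mapT.1 h
    exact fun e => hT.ne h1 (hf e)
  uniq := by
    intro a b c d h h'
    obtain ⟨x, y, z, h1, rfl, rfl, rfl⟩ := mem_mapT.1 h
    obtain ⟨x', y', z', h2, e1, e2, rfl⟩ := mem_mapT.1 h'
    rw [hf e1, hf e2] at h2
    rw [hT.uniq h1 h2]

theorem map_conn (hC : Conn T) : Conn (mapT f T) := by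
  have key : ∀ {s t : V × V × V}, ReflTransGen (Step T) s t →
      ReflTransGen (Step (mapT f T)) (f s.1, f s.2.1, f s.2.2) (f t.1, f t.2.1, f t.2.2) := by
    intro s t h
    induction h with
    | refl => exact ReflTransGen.refl
    | tail _ h2 ih =>
      refine ih.tail ?_
      cases h2 with
      | rot h => exact Step.rot (mem_map_of h)
      | flip h h' => exact Step.flip (mem_map_of h) (mem_map_of h')
  rintro ⟨x, y, z⟩ h ⟨x', y', z'⟩ h'
  obtain ⟨a, b, c, h1, rfl, rfl, rfl⟩ := mem_mapT.1 h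
  obtain ⟨a', b', c', h2, rfl, rfl, rfl⟩ := mem_mapT.1 h'
  exact key (hC _ h1 _ h2)

theorem map_clos (hC : Clos T) : Clos (mapT f T) := by
  intro x y z h
  obtain ⟨a, b, c, h1, rfl, rfl, rfl⟩ := mem_mapT.1 h
  obtain ⟨d, hd⟩ := hC _ _ _ h1
  exact ⟨f d, mem_map_of hd⟩

theorem map_adj {a b : V} (h : Adj T a b) : Adj (mapT f T) (f a) (f b) := by
  rcases h with ⟨c, h⟩ | ⟨c, h⟩
  · exact Or.inl ⟨f c, mem_map_of h⟩
  · exact Or.inr ⟨f c, mem_map_of h⟩

theorem map_chi (hf : Function.Injective f) : chi (mapT f T) = chi T := by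
  classical
  have h1 : verts (mapT f T) = (verts T).image f := by
    unfold verts mapT
    rw [Finset.image_image, Finset.image_image]
    rfl
  have h2 : edges (mapT f T) = (edges T).image (Sym2.map f) := by
    unfold edges mapT
    rw [Finset.image_image, Finset.image_image]
    refine Finset.image_congr ?_
    intro t _
    simp [Sym2.map_mk]
  have h3 : (mapT f T).card = T.card := by
    unfold mapT
    refine Finset.card_image_of_injective _ ?_
    rintro ⟨a, b, c⟩ ⟨a', b', c'⟩ h
    simp only [Prod.mk.injEq] at h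
    rw [hf h.1, hf h.2.1, hf h.2.2]
  unfold chi
  rw [h1, h2, h3, Finset.card_image_of_injective _ hf,
    Finset.card_image_of_injective _ (Sym2.map.injective hf)]

end Pool.Agent.H69.G4
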