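import Pool.Agent.H13.G4.Tstar
import Pool.Agent.H13.DA.RotD
import Pool.Agent.H69.G4.MapT

/-!
# From the absence of minimal counterexamples to planar graphs

* `solv_all` : every digraph on a disc with three outer arcs is solvable.
* `sphere_orders` : exact orders for a digraph on a sphere.
* `planar_orders` : exact orders for a digraph on the edges of a planar graph.
-/

set_option autoImplicit false

namespace Pool.Agent.H69.G4

open Relation SimpleGraph Pool.Agent.H13.DA Pool.Agent.H72.G4 Pool.Agent.H13.G4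
open Pool.Agent.H29.Tor

universe u

/-- there is no minimal counterexample -/
def NoMC (V : Type u) [DecidableEq V] : Prop :=
  ∀ (T : Finset (V × V × V)) (D : V → V → Prop) (a b c : V), MCw T D a b c → Ts T D a b c → False

theorem solv_all {V : Type u} [DecidableEq V] [Infinite V] (hno : NoMC V)
    {T : Finset (V × V × V)} {D : V → V → Prop} {a b c : V} (h : Pl T D [a, b, c])
    (ho : Out D a b c) : Solv D (Tr a b c) := by
  by_contra hs
  obtain ⟨T1, D1, a1, b1, c1, hM⟩ := exists_MC (V := V) (by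
    intro hall
    exact hs (hall T D a b c h ho))
  obtain ⟨T2, h1, h2⟩ := tstar hM
  exact hno T2 D1 a1 b1 c1 h2 h1

/-- the boundary of a sphere without a face -/
theorem clos_bd {V : Type u} [DecidableEq V] {T : Finset (V × V × V)} (hT : IsCx T)
    (hcl : Clos T) {j i w : V} (h : (j, i, w) ∈ T) : IsBd (T \ tri j i w) [i, j, w] := by
  obtain ⟨n1, n2, n3⟩ := cx_ne hT h
  obtain ⟨g1, g2⟩ := rot3 hT h
  have cl : ∀ {x y : V}, Dir T x y → Dir T y x := by
    rintro x y ⟨z, hz⟩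
    exact hcl _ _ _ hz
  have e1 : tri j i w = tri i w j := tri_eq j i w
  have e2 : tri j i w = tri w j i := e1.trans (tri_eq i w j)
  refine ⟨?_, by simp, ?_⟩
  · simp only [List.nodup_cons, List.mem_cons, List.not_mem_nil, or_false, not_or,
      not_false_eq_true, List.nodup_nil, and_true]
    exact ⟨⟨fun e => n1 e.symm, n2⟩, fun e => n3 e.symm⟩
  · intro a b
    have hc : Cyc [i, j, w] a b ↔ (a = i ∧ b = j) ∨ (a = j ∧ b = w) ∨ (a = w ∧ b = i) := by
      simp only [Cyc, Nx, List.cons_append, List.nil_append, or_false]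
    rw [hc, bd_dir]
    constructor
    · rintro ⟨h1, h2⟩
      have h3 : Dir T a b := (dir_iff hT h a b).2 (Or.inl h1)
      rcases (dir_iff hT h b a).1 (cl h3) with k | ⟨k1, k2⟩ | ⟨k1, k2⟩ | ⟨k1, k2⟩
      · exact absurd k h2
      · exact Or.inl ⟨k2, k1⟩
      · exact Or.inr (Or.inr ⟨k2, k1⟩)
      · exact Or.inr (Or.inl ⟨k2, k1⟩)
    · rintro (⟨rfl, rfl⟩ | ⟨rfl, rfl⟩ | ⟨rfl, rfl⟩)
      · refine ⟨?_, dir_gone hT h⟩
        rcases (dir_iff hT h a b).1 (cl ⟨w, h⟩) with k | ⟨k1, k2⟩ | ⟨k1, k2⟩ | ⟨k1, k2⟩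
        · exact k
        · exact absurd k2 n1
        · exact absurd k2 (fun e => n3 e.symm)
        · exact absurd k1 n2
      · refine ⟨?_, ?_⟩
        · rcases (dir_iff hT h a b).1 (cl ⟨i, g2⟩) with k | ⟨k1, k2⟩ | ⟨k1, k2⟩ | ⟨k1, k2⟩
          · exact k
          · exact absurd k2 (fun e => n2 e.symm)
          · exact absurd k1 n1
          · exact absurd k1 (fun e => n3 e.symm)
        · rw [e2]
          exact dir_gone hT g2
      · refine ⟨?_, ?_⟩
        · rcases (dir_iff hT h a b).1 (cl ⟨j, g1⟩) with k | ⟨k1, k2⟩ | ⟨k1, k2⟩ | ⟨k1, k2⟩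
          · exact k
          · exact absurd k1 n3
          · exact absurd k2 n2
          · exact absurd k2 (fun e => n1 e.symm)
        · rw [e1]
          exact dir_gone hT g1

theorem sto_flip {V : Type*} {r : V → V → Prop} (h : STO r) : STO (fun x y => r y x) where
  irr := h.irr
  tr := fun x y z h1 h2 => h.tr z y x h2 h1
  tot := fun x y => by
    rcases h.tot x y with k | k | k
    · exact Or.inr (Or.inr k)
    · exact Or.inr (Or.inl k)
    · exact Or.inl k

/-- exact orders for a digraph on a sphere -/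
theorem sphere_orders {V : Type u} [DecidableEq V] [Infinite V] (hno : NoMC V)
    {T : Finset (V × V × V)} (hT : IsCx T) (hc : Conn T) (hcl : Clos T) (h6 : chi T = 6)
    {D : V → V → Prop} (hD : ∀ x y, D x y → Adj T x y) (has : ∀ x y, D x y → ¬ D y x)
    (htr : ∀ x y z, D x y → D y z → ¬ D z x) {p q r : V} (h : (p, q, r) ∈ T) (hp : ¬ Re D p)
    (hq : ¬ Re D q) (hr : ¬ Re D r) :
    ∃ O : Fin 3 → V → V → Prop, (∀ i, STO (O i)) ∧ ∀ x y, D x y → Ex O x y := by
  obtain ⟨n1, n2, n3⟩ := cx_ne hT h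
  obtain ⟨g1, g2⟩ := rot3 hT h
  have n1' := n1.symm
  have n2' := n2.symm
  have n3' := n3.symm
  -- arcs of D avoid p, q, r
  have av : ∀ {x y : V}, D x y → (x ≠ p ∧ x ≠ q ∧ x ≠ r) ∧ (y ≠ p ∧ y ≠ q ∧ y ≠ r) := by
    intro x y hxy
    refine ⟨⟨?_, ?_, ?_⟩, ?_, ?_, ?_⟩
    · rintro rfl; exact hp ⟨y, Or.inl hxy⟩
    · rintro rfl; exact hq ⟨y, Or.inl hxy⟩
    · rintro rfl; exact hr ⟨y, Or.inl hxy⟩
    · rintro rfl; exact hp ⟨x, Or.inr hxy⟩
    · rintro rfl; exact hq ⟨x, Or.inr hxy⟩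
    · rintro rfl; exact hr ⟨x, Or.inr hxy⟩
  let N : V → V → Prop := fun x y => (x = p ∧ y = q) ∨ (x = q ∧ y = r) ∨ (x = p ∧ y = r)
  let D' : V → V → Prop := fun x y => D x y ∨ N x y
  have Nin : ∀ {x y : V}, N x y → (x = p ∨ x = q ∨ x = r) ∧ (y = p ∨ y = q ∨ y = r) := by
    rintro x y (⟨rfl, rfl⟩ | ⟨rfl, rfl⟩ | ⟨rfl, rfl⟩)
    · exact ⟨Or.inl rfl, Or.inr (Or.inl rfl)⟩
    · exact ⟨Or.inr (Or.inl rfl), Or.inr (Or.inr rfl)⟩
    · exact ⟨Or.inl rfl, Or.inr (Or.inr rfl)⟩
  have NDl : ∀ {x y z : V}, N x y → ¬ D y z := by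
    intro x y z h1 h2
    obtain ⟨k1, k2, k3⟩ := (av h2).1
    rcases (Nin h1).2 with k | k | k
    · exact k1 k
    · exact k2 k
    · exact k3 k
  have NDr : ∀ {x y z : V}, N x y → ¬ D z x := by
    intro x y z h1 h2
    obtain ⟨k1, k2, k3⟩ := (av h2).2
    rcases (Nin h1).1 with k | k | k
    · exact k1 k
    · exact k2 k
    · exact k3 k
  have Nas : ∀ x y, N x y → ¬ N y x := by
    rintro x y (⟨rfl, rfl⟩ | ⟨rfl, rfl⟩ | ⟨rfl, rfl⟩) (⟨k1, k2⟩ | ⟨k1, k2⟩ | ⟨k1, k2⟩)
    · exact n1 k2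
    · exact n3 k2.symm
    · exact n1 k1.symm
    · exact n3 k1
    · exact n2 k2
    · exact n3 k1
    · exact n3 k1
    · exact n2 k1.symm
    · exact n3 k1
  have Ntr : ∀ x y z, N x y → N y z → N x z := by
    rintro x y z (⟨rfl, rfl⟩ | ⟨rfl, rfl⟩ | ⟨rfl, rfl⟩) (⟨k1, k2⟩ | ⟨k1, k2⟩ | ⟨k1, k2⟩)
    · exact absurd k1.symm n1
    · exact Or.inr (Or.inr ⟨rfl, k2⟩)
    · exact absurd k1.symm n1
    · exact absurd k1 n3
    · exact absurd k1.symm n2
    · exact absurd k1 n3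
    · exact absurd k1 n3
    · exact absurd k1.symm n2
    · exact absurd k1 n3
  have hP : Pl (T \ tri p q r) D' [q, p, r] := by
    refine ⟨clos_del hT hc hcl h6 h, clos_bd hT hcl h, ?_, ?_, ?_⟩
    · rintro x y (k | ⟨rfl, rfl⟩ | ⟨rfl, rfl⟩ | ⟨rfl, rfl⟩)
      · exact clos_adj hT hcl h (hD x y k)
      · exact clos_adj hT hcl h (Or.inl ⟨_, h⟩)
      · exact clos_adj hT hcl h (Or.inl ⟨_, g1⟩)
      · exact clos_adj hT hcl h (Or.inr ⟨_, g2⟩)
    · rintro x y (k | k) (k' | k')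
      · exact has _ _ k k'
      · exact NDl k' k
      · exact NDl k k'
      · exact Nas _ _ k k'
    · rintro x y z (k | k) (k' | k') (k'' | k'')
      · exact htr _ _ _ k k' k''
      · exact NDl k'' k
      · exact NDr k' k
      · exact NDl k'' k
      · exact NDl k k'
      · exact NDl k k'
      · exact NDl k' k''
      · exact Nas _ _ (Ntr _ _ _ k k') k''
  have hO : Out D' q p r := ⟨Or.inr (Or.inr (Or.inl ⟨rfl, rfl⟩)),
    Or.inl (Or.inr (Or.inr (Or.inr ⟨rfl, rfl⟩))), Or.inr (Or.inr (Or.inr (Or.inl ⟨rfl, rfl⟩)))⟩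
  obtain ⟨t, ht, htN⟩ := exists_sto N (fun x k => Nas x x k k) Ntr
  let O0 : Fin 3 → V → V → Prop := fun i => if i = 2 then (fun x y => t y x) else t
  have hO0 : ∀ i, STO (O0 i) := by
    intro i
    by_cases hi : i = 2
    · simp only [O0, if_pos hi]
      exact sto_flip ht
    · simp only [O0, if_neg hi]
      exact ht
  obtain ⟨O, o1, o2, -⟩ := solv_all hno hP hO O0 hO0 (by
    rintro x y hx hy (k | k)
    · exfalso
      obtain ⟨⟨k1, k2, k3⟩, -⟩ := av k
      rcases hx with hx | hx | hx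
      · exact k2 hx
      · exact k1 hx
      · exact k3 hx
    · refine ⟨2, ?_, fun j hj => ?_⟩
      · simp only [O0, if_pos rfl]
        exact htN _ _ k
      · simp only [O0, if_neg hj]
        exact htN _ _ k)
  exact ⟨O, o1, fun x y hxy => o2 x y (Or.inl hxy)⟩

/-- exact orders for a digraph on the edges of a planar graph -/
theorem planar_orders {V : Type u} [Finite V] (G : SimpleGraph V) (hG : IsPlanar G)
    (hno : ∀ (W : Type u) [DecidableEq W] [Infinite W], NoMC W)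
    {D : V → V → Prop} (hD : ∀ x y, D x y → G.Adj x y) (has : ∀ x y, D x y → ¬ D y x)
    (htr : ∀ x y z, D x y → D y z → ¬ D z x) :
    ∃ O : Fin 3 → V → V → Prop, (∀ i, STO (O i)) ∧ ∀ x y, D x y → Ex O x y := by
  classical
  obtain ⟨R, hR⟩ := hG
  have hcx := rt_cx R
  have hcl := rt_clos R
  let W : Type u := Wt R ⊕ ULift.{u} ℕ
  let f : Wt R → W := Sum.inl
  have hf : Function.Injective f := Sum.inl_injective
  have : Infinite W := Infinite.of_injective (Sum.inr : ULift.{u} ℕ → W) Sum.inr_injective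
  have hfv : ∀ {x y : V}, f (vx R x) = f (vx R y) ↔ x = y := by
    intro x y
    rw [hf.eq_iff, vx_iff]
  let Dd : G.Dart → W → W → Prop := fun d x y => ∃ u v, f (vx R u) = x ∧ f (vx R v) = y ∧ D u v ∧
    G.connectedComponentMk u = G.connectedComponentMk d.fst
  have hcol : ∀ d : G.Dart, ∃ O : Fin 3 → W → W → Prop, (∀ i, STO (O i)) ∧
      ∀ x y, Dd d x y → Ex O x y := by
    intro d
    have hC : (rx R (d, false), rx R (ps R (d, false)), fx R d) ∈
        comp (RT R) (vx R d.fst, vx R d.snd, rx R (d, false)) := by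
      rw [mem_comp]
      exact ⟨rt_C R (d, false), (AB R d).trans (BC R (d, false))⟩
    refine sphere_orders (V := W) (hno W)
      (T := mapT f (comp (RT R) (vx R d.fst, vx R d.snd, rx R (d, false))))
      (map_cx hf (comp_isCx hcx _)) (map_conn (comp_conn hcx _)) (map_clos (comp_clos hcx hcl _))
      (by rw [map_chi hf]; exact rt_spheres R hR _ (rt_edge R d)) ?_ ?_ ?_
      (mem_map_of hC) ?_ ?_ ?_
    · rintro x y ⟨u, v, rfl, rfl, h1, h2⟩
      refine map_adj (Or.inl ⟨rx R (⟨(u, v), hD u v h1⟩, false), ?_⟩)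
      rw [mem_comp]
      refine ⟨rt_edge R ⟨(u, v), hD u v h1⟩, ?_⟩
      exact rt_AA R d ⟨(u, v), hD u v h1⟩ (ConnectedComponent.exact h2.symm)
    · rintro x y ⟨u, v, rfl, rfl, h1, -⟩ ⟨u', v', e1, e2, h2, -⟩
      rw [hfv] at e1 e2
      subst e1 e2
      exact has _ _ h1 h2
    · rintro x y z ⟨u, v, rfl, rfl, h1, -⟩ ⟨u', v', e1, rfl, h2, -⟩ ⟨u'', v'', e2, e3, h3, -⟩
      rw [hfv] at e1 e2 e3
      subst e1 e2 e3
      exact htr _ _ _ h1 h2 h3
    · rintro ⟨y, ⟨u, v, e1, -, -, -⟩ | ⟨u, v, -, e1, -, -⟩⟩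
      · exact (vx_rx R _ _).1 (hf e1)
      · exact (vx_rx R _ _).1 (hf e1)
    · rintro ⟨y, ⟨u, v, e1, -, -, -⟩ | ⟨u, v, -, e1, -, -⟩⟩
      · exact (vx_rx R _ _).1 (hf e1)
      · exact (vx_rx R _ _).1 (hf e1)
    · rintro ⟨y, ⟨u, v, e1, -, -, -⟩ | ⟨u, v, -, e1, -, -⟩⟩
      · exact (vx_fx R _ _).1 (hf e1)
      · exact (vx_fx R _ _).1 (hf e1)
  choose Od hOd hEd using hcol
  have hWO : STO (WellOrderingRel : W → W → Prop) := by
    refine ⟨fun x h => (irrefl_of WellOrderingRel x) h,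
      fun x y z h1 h2 => trans_of WellOrderingRel h1 h2, fun x y => ?_⟩
    rcases trichotomous_of WellOrderingRel x y with h | h | h
    · exact Or.inl h
    · exact Or.inr (Or.inl h)
    · exact Or.inr (Or.inr h)
  let OK : G.ConnectedComponent → Fin 3 → W → W → Prop := fun K =>
    if h : ∃ d : G.Dart, G.connectedComponentMk d.fst = K then Od h.choose
    else fun _ => WellOrderingRel
  have hOK : ∀ K i, STO (OK K i) := by
    intro K i
    by_cases h : ∃ d : G.Dart, G.connectedComponentMk d.fst = K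
    · simp only [OK, dif_pos h]
      exact hOd _ i
    · simp only [OK, dif_neg h]
      exact hWO
  let cc : V → G.ConnectedComponent := G.connectedComponentMk
  let O : Fin 3 → V → V → Prop := fun i x y =>
    WellOrderingRel (cc x) (cc y) ∨ (cc x = cc y ∧ OK (cc x) i (f (vx R x)) (f (vx R y)))
  have irr : ∀ K : G.ConnectedComponent, ¬ WellOrderingRel K K := fun K h =>
    (irrefl_of WellOrderingRel K) h
  refine ⟨O, fun i => ⟨?_, ?_, ?_⟩, ?_⟩
  · rintro x (h | ⟨-, h⟩)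
    · exact irr _ h
    · exact (hOK _ i).irr _ h
  · rintro x y z (h1 | ⟨e1, h1⟩) (h2 | ⟨e2, h2⟩)
    · exact Or.inl (trans_of WellOrderingRel h1 h2)
    · exact Or.inl (e2 ▸ h1)
    · exact Or.inl (e1 ▸ h2)
    · refine Or.inr ⟨e1.trans e2, ?_⟩
      rw [← e1] at h2
      exact (hOK _ i).tr _ _ _ h1 h2
  · intro x y
    rcases trichotomous_of WellOrderingRel (cc x) (cc y) with h | h | h
    · exact Or.inl (Or.inl h)
    · rcases (hOK (cc x) i).tot (f (vx R x)) (f (vx R y)) with k | k | k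
      · exact Or.inl (Or.inr ⟨h, k⟩)
      · exact Or.inr (Or.inl (hfv.1 k))
      · refine Or.inr (Or.inr (Or.inr ⟨h.symm, ?_⟩))
        rw [← h]
        exact k
    · exact Or.inr (Or.inr (Or.inl h))
  · intro x y hxy
    have e : cc x = cc y := ConnectedComponent.connectedComponentMk_eq_of_adj (hD x y hxy)
    have hex : ∃ d : G.Dart, G.connectedComponentMk d.fst = cc x := ⟨⟨(x, y), hD x y hxy⟩, rfl⟩
    have hd : OK (cc x) = Od hex.choose := by
      simp only [OK, dif_pos hex]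
    have k := hEd hex.choose (f (vx R x)) (f (vx R y))
      ⟨x, y, rfl, rfl, hxy, hex.choose_spec.symm⟩
    obtain ⟨i, h1, h2⟩ := k
    refine ⟨i, Or.inr ⟨e.symm, ?_⟩, fun j hj => Or.inr ⟨e, ?_⟩⟩
    · rw [← e, hd]
      exact h1
    · rw [hd]
      exact h2 j hj

end Pool.Agent.H69.G4
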